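import Pool.Agent.Lib.MP_c5838f_co.SP.Iface

/-! # Module EMB (MP_c5838f_co), helper51. -/

set_option autoImplicit false

open Finset

namespace Pool.Agent.Lib.MP_c5838f_co.SP.H51

/-- the indicator vector of a word -/
noncomputable def vec {J Q : Type} [DecidableEq Q] {n : ℕ} (e : J × Q → Fin n) (c : ℝ)
    (x : J → Q) : EuclideanSpace ℝ (Fin n) :=
  WithLp.toLp 2 (Function.extend e (fun u => if x u.1 = u.2 then c else 0) 0)

theorem dist_vec {J Q : Type} [Fintype J] [Fintype Q] [DecidableEq J] [DecidableEq Q] {n : ℕ}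
    (e : J × Q → Fin n) (he : Function.Injective e) (c : ℝ) (x y : J → Q) :
    dist (vec e c x) (vec e c y) = Real.sqrt (2 * c ^ 2 * (hammingDist x y : ℝ)) := by
  rw [EuclideanSpace.dist_eq]
  congr 1
  have h1' : ∀ (z : J → Q) (u : J × Q), (vec e c z) (e u) = if z u.1 = u.2 then c else 0 := by
    intro z u
    show Function.extend e (fun u => if z u.1 = u.2 then c else 0) 0 (e u) = _
    rw [he.extend_apply]
  have h3' : ∀ (z : J → Q) (k : Fin n), k ∉ Set.range e → (vec e c z) k = 0 := by
    intro z k hk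
    show Function.extend e (fun u => if z u.1 = u.2 then c else 0) 0 k = _
    rw [Function.extend_apply' _ _ _ hk]
    rfl
  have h1 := h1' x
  have h2 := h1' y
  have h3 := h3' x
  have h4 := h3' y
  have h5 : ∑ k : Fin n, dist ((vec e c x) k) ((vec e c y) k) ^ 2 =
      ∑ u : J × Q, dist ((vec e c x) (e u)) ((vec e c y) (e u)) ^ 2 := by
    have h6 : ∑ u : J × Q, dist ((vec e c x) (e u)) ((vec e c y) (e u)) ^ 2 =
        ∑ k ∈ (univ : Finset (J × Q)).map ⟨e, he⟩, dist ((vec e c x) k) ((vec e c y) k) ^ 2 := by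
      rw [Finset.sum_map]; rfl
    rw [h6]
    symm
    refine Finset.sum_subset (Finset.subset_univ _) fun k _ hk => ?_
    have hk' : k ∉ Set.range e := by
      rintro ⟨u, rfl⟩
      exact hk (Finset.mem_map.2 ⟨u, Finset.mem_univ _, rfl⟩)
    rw [h3 k hk', h4 k hk', dist_self]
    norm_num
  rw [h5, Fintype.sum_prod_type]
  have h7 : ∀ j : J, ∑ q : Q, dist ((vec e c x) (e (j, q))) ((vec e c y) (e (j, q))) ^ 2 =
      if x j = y j then 0 else 2 * c ^ 2 := by
    intro j
    by_cases hj : x j = y j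
    · rw [if_pos hj]
      refine Finset.sum_eq_zero fun q _ => ?_
      rw [h1, h2, hj, dist_self]
      norm_num
    · rw [if_neg hj]
      have h8 : ∀ q : Q, dist ((vec e c x) (e (j, q))) ((vec e c y) (e (j, q))) ^ 2 =
          (if x j = q then c ^ 2 else 0) + (if y j = q then c ^ 2 else 0) := by
        intro q
        rw [h1, h2]
        by_cases ha : x j = q
        · have hb : y j ≠ q := fun hb => hj (ha.trans hb.symm)
          rw [if_pos ha, if_pos ha, if_neg hb, if_neg hb, Real.dist_eq, sq_abs]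
          ring
        · rw [if_neg ha, if_neg ha]
          by_cases hb : y j = q
          · rw [if_pos hb, if_pos hb, Real.dist_eq, sq_abs]
            ring
          · rw [if_neg hb, if_neg hb, Real.dist_eq, sq_abs]
            ring
      rw [Finset.sum_congr rfl fun q _ => h8 q, Finset.sum_add_distrib, Finset.sum_ite_eq,
        Finset.sum_ite_eq, if_pos (Finset.mem_univ _), if_pos (Finset.mem_univ _)]
      ring
  rw [Finset.sum_congr rfl fun j _ => h7 j, Finset.sum_ite, Finset.sum_const_zero, zero_add,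
    Finset.sum_const, nsmul_eq_mul, hammingDist]
  ring

theorem emb : EmbStatement := by
  intro J Q _ _ _ _ X d n hd hX hn
  classical
  have hcard : Fintype.card (J × Q) ≤ Fintype.card (Fin n) := by
    rw [Fintype.card_prod, Fintype.card_fin]
    exact hn
  obtain ⟨⟨e, he⟩⟩ := Function.Embedding.nonempty_of_card_le hcard
  have hdR : (0 : ℝ) < d := by exact_mod_cast hd
  set c : ℝ := Real.sqrt (2 / d) with hc
  have hc2 : c ^ 2 = 2 / d := Real.sq_sqrt (by positivity)
  have hdist : ∀ x y : J → Q, dist (vec e c x) (vec e c y) =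
      2 * Real.sqrt ((hammingDist x y : ℝ) / d) := by
    intro x y
    rw [dist_vec e he, hc2]
    have h1 : 2 * (2 / (d : ℝ)) * (hammingDist x y : ℝ) =
        2 ^ 2 * ((hammingDist x y : ℝ) / d) := by ring
    rw [h1, Real.sqrt_mul (by norm_num), Real.sqrt_sq (by norm_num)]
  refine ⟨X.image (vec e c), ?_, ?_⟩
  · intro a ha b hb hab
    rw [Finset.mem_image] at ha hb
    obtain ⟨x, hx, rfl⟩ := ha
    obtain ⟨y, hy, rfl⟩ := hb
    have hxy : x ≠ y := fun h => hab (by rw [h])
    rw [hdist]
    have h1 : (1 : ℝ) ≤ Real.sqrt ((hammingDist x y : ℝ) / d) := by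
      rw [Real.one_le_sqrt, le_div_iff₀ hdR, one_mul]
      exact_mod_cast hX x hx y hy hxy
    linarith
  · rintro m ⟨col⟩
    refine ⟨fun x => col ⟨vec e c x.1, Finset.mem_image_of_mem _ x.2⟩, ?_⟩
    intro x y hxy
    apply col.valid
    show dist (vec e c x.1) (vec e c y.1) = 2
    rw [hdist, hxy, div_self hdR.ne', Real.sqrt_one, mul_one]

end Pool.Agent.Lib.MP_c5838f_co.SP.H51
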