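import Pool.Agent.Lib.MP_c5838f_co.SP.Iface

/-! # Module ESYM (MP_c5838f_co), helper51. -/

set_option autoImplicit false

open Finset

namespace Pool.Agent.Lib.MP_c5838f_co.SP.H51

/-- elementary symmetric functions of the numbers `ξ i`, `i ∈ S` -/
noncomputable def es {ι : Type} (ξ : ι → ℝ) (j : ℕ) (S : Finset ι) : ℝ :=
  ∑ T ∈ powersetCard j S, ∏ i ∈ T, ξ i

section

variable {ι : Type} [DecidableEq ι] (ξ : ι → ℝ)

omit [DecidableEq ι] in
theorem es_zero (S : Finset ι) : es ξ 0 S = 1 := by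
  simp [es]

omit [DecidableEq ι] in
theorem es_succ_empty (j : ℕ) : es ξ (j + 1) ∅ = 0 := by
  rw [es, powersetCard_eq_empty.2 (by simp), Finset.sum_empty]

theorem es_insert {a : ι} {S : Finset ι} (ha : a ∉ S) (j : ℕ) :
    es ξ (j + 1) (insert a S) = es ξ (j + 1) S + ξ a * es ξ j S := by
  rw [es, powersetCard_succ_insert ha, Finset.sum_union, es, es, Finset.mul_sum,
    Finset.sum_image]
  · congr 1
    refine Finset.sum_congr rfl fun T hT => ?_
    rw [mem_powersetCard] at hT
    rw [Finset.prod_insert fun h => ha (hT.1 h)]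
  · intro T hT T' hT' h
    rw [Finset.mem_coe, mem_powersetCard] at hT hT'
    have h1 : (insert a T).erase a = T := erase_insert fun h => ha (hT.1 h)
    have h2 : (insert a T').erase a = T' := erase_insert fun h => ha (hT'.1 h)
    have h' : insert a T = insert a T' := h
    rw [← h1, ← h2, h']
  · rw [Finset.disjoint_left]
    intro T hT hT'
    rw [mem_powersetCard] at hT
    rw [Finset.mem_image] at hT'
    obtain ⟨T', -, rfl⟩ := hT'
    exact ha (hT.1 (mem_insert_self a T'))

omit [DecidableEq ι] in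
theorem es_nonneg {S : Finset ι} (h : ∀ i ∈ S, 0 ≤ ξ i) (j : ℕ) : 0 ≤ es ξ j S := by
  refine Finset.sum_nonneg fun T hT => Finset.prod_nonneg fun i hi => h i ?_
  rw [mem_powersetCard] at hT
  exact hT.1 hi

/-- Step for numbers in `[0,1]`. -/
theorem es_pos_step {S : Finset ι} (h0 : ∀ i ∈ S, 0 ≤ ξ i) (h1 : ∀ i ∈ S, ξ i ≤ 1) :
    ∀ j : ℕ, (∑ i ∈ S, ξ i - j) * es ξ j S ≤ (j + 1) * es ξ (j + 1) S := by
  induction S using Finset.induction_on with
  | empty =>
    intro j
    rcases j with _ | j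
    · rw [es_zero, es_succ_empty]
      simp
    · rw [es_succ_empty, es_succ_empty]
      simp
  | insert a S ha ih =>
    have h0' : ∀ i ∈ S, 0 ≤ ξ i := fun i hi => h0 i (mem_insert_of_mem hi)
    have h1' : ∀ i ∈ S, ξ i ≤ 1 := fun i hi => h1 i (mem_insert_of_mem hi)
    have ih' := ih h0' h1'
    have ha0 := h0 a (mem_insert_self a S)
    have ha1 := h1 a (mem_insert_self a S)
    intro j
    rw [Finset.sum_insert ha, es_insert ξ ha]
    rcases j with _ | j
    · rw [es_zero, es_zero]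
      have := ih' 0
      rw [es_zero] at this
      push_cast at this ⊢
      nlinarith
    · rw [es_insert ξ ha]
      have e1 := ih' (j + 1)
      have e2 := mul_le_mul_of_nonneg_left (ih' j) ha0
      have e3 : 0 ≤ ξ a * (1 - ξ a) * es ξ j S :=
        mul_nonneg (mul_nonneg ha0 (by linarith)) (es_nonneg ξ h0' j)
      push_cast at e1 e2 ⊢
      nlinarith

theorem pow_add_le (x a : ℝ) (hx : 0 ≤ x) (ha : 0 ≤ a) (n : ℕ) :
    x ^ (n + 1) + (n + 1) * a * x ^ n ≤ (x + a) ^ (n + 1) := by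
  induction n with
  | zero => simp
  | succ n ih =>
    have h1 := mul_le_mul_of_nonneg_right ih (add_nonneg hx ha)
    have h2 : 0 ≤ ((n : ℝ) + 1) * a * x ^ n * a := by positivity
    rw [pow_succ (x + a) (n + 1)]
    push_cast at h1 ⊢
    calc x ^ (n + 1 + 1) + ((n : ℝ) + 1 + 1) * a * x ^ (n + 1)
        ≤ (x ^ (n + 1) + ((n : ℝ) + 1) * a * x ^ n) * (x + a) := by
          have h3 : (x ^ (n + 1) + ((n : ℝ) + 1) * a * x ^ n) * (x + a) =
            x ^ (n + 1 + 1) + ((n : ℝ) + 1 + 1) * a * x ^ (n + 1) +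
              ((n : ℝ) + 1) * a * x ^ n * a := by ring
          rw [h3]
          linarith
      _ ≤ _ := h1

theorem es_le_pow {S : Finset ι} (h0 : ∀ i ∈ S, 0 ≤ ξ i) :
    ∀ j : ℕ, (j.factorial : ℝ) * es ξ j S ≤ (∑ i ∈ S, ξ i) ^ j := by
  induction S using Finset.induction_on with
  | empty =>
    intro j
    rcases j with _ | j
    · rw [es_zero]
      simp
    · rw [es_succ_empty]
      simp
  | insert a S ha ih =>
    have h0' : ∀ i ∈ S, 0 ≤ ξ i := fun i hi => h0 i (mem_insert_of_mem hi)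
    have ih' := ih h0'
    have ha0 := h0 a (mem_insert_self a S)
    have hX : 0 ≤ ∑ i ∈ S, ξ i := Finset.sum_nonneg h0'
    intro j
    rcases j with _ | j
    · rw [es_zero]
      simp
    · rw [es_insert ξ ha, Finset.sum_insert ha, add_comm (ξ a)]
      refine le_trans ?_ (pow_add_le _ _ hX ha0 j)
      have e1 := ih' (j + 1)
      have e2 := mul_le_mul_of_nonneg_left (ih' j)
        (mul_nonneg (by positivity : (0 : ℝ) ≤ (j : ℝ) + 1) ha0)
      rw [Nat.factorial_succ] at e1 ⊢
      push_cast at e1 e2 ⊢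
      nlinarith

/-- The negative numbers are inserted one at a time. -/
theorem es_neg_step (D : ℕ) (P : Finset ι) (hP0 : ∀ j, 0 ≤ es ξ j P)
    (hP : ∀ j < D, es ξ j P ≤ es ξ (j + 1) P) (N : Finset ι) (hN : ∀ i ∈ N, ξ i ≤ 0)
    (hd : Disjoint P N) (hβ : ∑ i ∈ N, -ξ i ≤ 1) :
    (∀ j ≤ D, 0 ≤ es ξ j (P ∪ N)) ∧
      ∀ j < D, (1 - ∑ i ∈ N, -ξ i) * es ξ j (P ∪ N) ≤ es ξ (j + 1) (P ∪ N) := by
  induction N using Finset.induction_on with
  | empty =>
    refine ⟨fun j _ => by rw [union_empty]; exact hP0 j, fun j hj => ?_⟩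
    rw [union_empty, Finset.sum_empty, sub_zero, one_mul]
    exact hP j hj
  | insert a N ha ih =>
    rw [Finset.disjoint_insert_right] at hd
    have hN' : ∀ i ∈ N, ξ i ≤ 0 := fun i hi => hN i (mem_insert_of_mem hi)
    have ha0 := hN a (mem_insert_self a N)
    rw [Finset.sum_insert ha] at hβ ⊢
    have hb0 : 0 ≤ ∑ i ∈ N, -ξ i := Finset.sum_nonneg fun i hi => by
      have := hN' i hi
      linarith
    obtain ⟨i1, i2⟩ := ih hN' hd.2 (by linarith)
    have haU : a ∉ P ∪ N := by
      rw [mem_union, not_or]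
      exact ⟨hd.1, ha⟩
    rw [union_insert]
    have hu : ∀ j ≤ D, 0 ≤ es ξ j (insert a (P ∪ N)) ∧
        es ξ j (insert a (P ∪ N)) ≤ es ξ j (P ∪ N) := by
      intro j hj
      rcases j with _ | j
      · rw [es_zero, es_zero]
        exact ⟨zero_le_one, le_rfl⟩
      · rw [es_insert ξ haU]
        have e1 := i2 j (by omega)
        have e2 := i1 j (by omega)
        constructor
        · nlinarith
        · nlinarith
    refine ⟨fun j hj => (hu j hj).1, fun j hj => ?_⟩
    have e1 := i2 j hj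
    have e2 := i1 j hj.le
    have e3 := hu j hj.le
    rw [es_insert ξ haU j]
    have e4 : (1 - (-ξ a + ∑ i ∈ N, -ξ i)) * es ξ j (insert a (P ∪ N)) ≤
        (1 - (-ξ a + ∑ i ∈ N, -ξ i)) * es ξ j (P ∪ N) :=
      mul_le_mul_of_nonneg_left e3.2 (by linarith)
    nlinarith

end

theorem esym : EsymStatement := by
  intro K D ξ ε hε h1 h2 hK
  classical
  show -(32 : ℝ) ^ D ≤ es ξ D univ
  set P : Finset (Fin K) := {i | 0 ≤ ξ i} with hP
  set N : Finset (Fin K) := {i | ¬ 0 ≤ ξ i} with hN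
  have hPN : P ∪ N = univ := Finset.filter_union_filter_not_eq _ _
  have hd : Disjoint P N := Finset.disjoint_filter_filter_not _ _ _
  have hP0 : ∀ i ∈ P, 0 ≤ ξ i := fun i hi => (Finset.mem_filter.1 hi).2
  have hP1 : ∀ i ∈ P, ξ i ≤ 1 := fun i _ => h2 i
  have hN0 : ∀ i ∈ N, ξ i ≤ 0 := fun i hi => (not_le.1 (Finset.mem_filter.1 hi).2).le
  have hβ : ∑ i ∈ N, -ξ i ≤ 1 / 2 := by
    refine le_trans ?_ hK
    calc ∑ i ∈ N, -ξ i ≤ ∑ i ∈ N, ε := Finset.sum_le_sum fun i _ => by
          have := h1 i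
          linarith
      _ = #N * ε := by rw [Finset.sum_const, nsmul_eq_mul]
      _ ≤ K * ε := by
          refine mul_le_mul_of_nonneg_right ?_ hε
          have : #N ≤ K := by
            calc #N ≤ #(univ : Finset (Fin K)) := Finset.card_le_card (Finset.subset_univ _)
              _ = K := by rw [Finset.card_univ, Fintype.card_fin]
          exact_mod_cast this
  by_cases hX : 2 * (D : ℝ) ≤ ∑ i ∈ P, ξ i
  · have h3 : ∀ j < D, es ξ j P ≤ es ξ (j + 1) P := by
      intro j hj
      have h4 := es_pos_step ξ hP0 hP1 j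
      have h5 := es_nonneg ξ hP0 j
      have h6 : (j : ℝ) + 1 ≤ D := by exact_mod_cast hj
      have h7 : ((j : ℝ) + 1) * es ξ j P ≤ (∑ i ∈ P, ξ i - j) * es ξ j P :=
        mul_le_mul_of_nonneg_right (by linarith [Nat.cast_nonneg (α := ℝ) j]) h5
      have h8 : ((j : ℝ) + 1) * es ξ j P ≤ ((j : ℝ) + 1) * es ξ (j + 1) P := h7.trans h4
      exact le_of_mul_le_mul_left h8 (by positivity)
    have h4 := (es_neg_step ξ D P (es_nonneg ξ hP0) h3 N hN0 hd (by linarith)).1 D le_rfl
    rw [hPN] at h4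
    have : (0 : ℝ) ≤ (32 : ℝ) ^ D := by positivity
    linarith
  · rw [not_le] at hX
    rcases Nat.eq_zero_or_pos D with hD | hD
    · subst hD
      rw [es_zero]
      norm_num
    · have h3 : |es ξ D univ| ≤ es (fun i => |ξ i|) D univ := by
        refine (Finset.abs_sum_le_sum_abs _ _).trans (Finset.sum_le_sum fun T _ => ?_)
        rw [Finset.abs_prod]
      have h4 := es_le_pow (fun i : Fin K => |ξ i|) (S := univ) (fun i _ => abs_nonneg _) D
      have h5 : ∑ i : Fin K, |ξ i| ≤ 3 * D := by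
        have h6 : ∑ i : Fin K, |ξ i| = ∑ i ∈ P, ξ i + ∑ i ∈ N, -ξ i := by
          rw [← hPN, Finset.sum_union hd]
          congr 1
          · exact Finset.sum_congr rfl fun i hi => abs_of_nonneg (hP0 i hi)
          · exact Finset.sum_congr rfl fun i hi => abs_of_nonpos (hN0 i hi)
        have h7 : (1 : ℝ) ≤ D := by exact_mod_cast hD
        rw [h6]
        linarith
      have h6 : 0 ≤ ∑ i : Fin K, |ξ i| := Finset.sum_nonneg fun i _ => abs_nonneg _
      have h7 : (∑ i : Fin K, |ξ i|) ^ D ≤ (3 * (D : ℝ)) ^ D :=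
        pow_le_pow_left₀ h6 h5 D
      have h8 := Real.pow_div_factorial_le_exp (3 * (D : ℝ)) (by positivity) D
      have hf : (0 : ℝ) < D.factorial := by exact_mod_cast D.factorial_pos
      have h9 : es (fun i => |ξ i|) D univ ≤ Real.exp (3 * D) := by
        refine le_trans ?_ h8
        rw [le_div_iff₀ hf, mul_comm]
        exact h4.trans h7
      have h10 : Real.exp (3 * (D : ℝ)) ≤ 32 ^ D := by
        rw [mul_comm, Real.exp_nat_mul]
        refine pow_le_pow_left₀ (Real.exp_pos _).le ?_ D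
        have h11 : Real.exp 3 = Real.exp 1 ^ 3 := by
          rw [← Real.exp_nat_mul]
          norm_num
        rw [h11]
        have h12 := Real.exp_one_lt_d9
        have h13 := (Real.exp_pos 1).le
        calc Real.exp 1 ^ 3 ≤ 3 ^ 3 := pow_le_pow_left₀ h13 (by linarith) 3
          _ ≤ 32 := by norm_num
      have h11 := (abs_le.1 h3).1
      linarith

end Pool.Agent.Lib.MP_c5838f_co.SP.H51
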