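import Pool.Agent.Lib.MP_c5838f_co.SP.Iface

/-! # Module RS (MP_c5838f_co), helper51. -/

set_option autoImplicit false

open Finset

namespace Pool.Agent.Lib.MP_c5838f_co.SP.H51

open Polynomial

theorem ev_coeff {p κ : ℕ} (P : Polynomial (ZMod p)) (hP : P.natDegree ≤ κ) (y : ZMod p) :
    ev (fun j : Fin (κ + 1) => P.coeff j) y = P.eval y := by
  rw [ev, eval_eq_sum_range' (Nat.lt_succ_of_le hP), Finset.sum_range]

theorem exists_poly {p κ : ℕ} (a : Fin (κ + 1) → ZMod p) :
    ∃ P : Polynomial (ZMod p), P.natDegree ≤ κ ∧ ∀ j : Fin (κ + 1), P.coeff j = a j := by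
  refine ⟨∑ j : Fin (κ + 1), C (a j) * X ^ (j : ℕ), ?_, ?_⟩
  · refine natDegree_sum_le_of_forall_le _ _ fun j _ => ?_
    exact (natDegree_C_mul_X_pow_le _ _).trans (Nat.le_of_lt_succ j.2)
  · intro j
    rw [finsetSum_coeff, Finset.sum_eq_single j]
    · rw [coeff_C_mul_X_pow, if_pos rfl]
    · intro i _ hij
      rw [coeff_C_mul_X_pow, if_neg]
      intro h
      exact hij (Fin.ext h.symm)
    · intro h
      exact absurd (Finset.mem_univ j) h

theorem rsz : RszStatement := by
  intro p κ _ a ha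
  obtain ⟨P, hd, hP⟩ := exists_poly a
  have hP0 : P ≠ 0 := by
    rintro rfl
    apply ha
    funext j
    rw [← hP j, coeff_zero]
    rfl
  have h1 : (fun j : Fin (κ + 1) => P.coeff j) = a := funext hP
  have h2 : ({y : ZMod p | ev a y = 0} : Finset (ZMod p)) ⊆ P.roots.toFinset := by
    intro y hy
    rw [Finset.mem_filter] at hy
    rw [Multiset.mem_toFinset, mem_roots hP0, IsRoot.def, ← ev_coeff P hd y, h1]
    exact hy.2
  calc nz a ≤ #P.roots.toFinset := Finset.card_le_card h2
    _ ≤ Multiset.card P.roots := Multiset.toFinset_card_le _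
    _ ≤ P.natDegree := card_roots' P
    _ ≤ κ := hd

theorem rsw : RswStatement := by
  intro p κ _ hκ
  classical
  let f : ZMod p × Finset (ZMod p) → Polynomial (ZMod p) := fun u => C u.1 * ∏ s ∈ u.2, (X - C s)
  have hmon : ∀ S : Finset (ZMod p), (∏ s ∈ S, (X - C s)).Monic := fun S =>
    monic_prod_of_monic _ _ fun s _ => monic_X_sub_C s
  have hdeg : ∀ S : Finset (ZMod p), (∏ s ∈ S, (X - C s)).natDegree = #S := by
    intro S
    rw [natDegree_prod_of_monic _ _ fun s _ => monic_X_sub_C s]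
    simp
  have heval : ∀ (c : ZMod p) (S : Finset (ZMod p)) (y : ZMod p), c ≠ 0 →
      ((f (c, S)).eval y = 0 ↔ y ∈ S) := by
    intro c S y hc
    rw [eval_mul, eval_C, eval_prod, mul_eq_zero, Finset.prod_eq_zero_iff]
    constructor
    · rintro (h | ⟨s, hs, h⟩)
      · exact absurd h hc
      · rw [eval_sub, eval_X, eval_C, sub_eq_zero] at h
        rw [h]; exact hs
    · intro h
      exact Or.inr ⟨y, h, by rw [eval_sub, eval_X, eval_C, sub_self]⟩
  have hfdeg : ∀ (c : ZMod p) (S : Finset (ZMod p)), c ≠ 0 → (f (c, S)).natDegree = #S := by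
    intro c S hc
    rw [natDegree_C_mul hc, hdeg]
  have hlead : ∀ (c : ZMod p) (S : Finset (ZMod p)), (f (c, S)).coeff #S = c := by
    intro c S
    rw [coeff_C_mul]
    have := (hmon S).coeff_natDegree
    rw [hdeg] at this
    rw [this, mul_one]
  let g : ZMod p × Finset (ZMod p) → (Fin (κ + 1) → ZMod p) := fun u j => (f u).coeff j
  have hcard : #(((univ : Finset (ZMod p)).erase 0) ×ˢ powersetCard κ (univ : Finset (ZMod p))) =
      (p - 1) * p.choose κ := by
    rw [card_product, card_erase_of_mem (mem_univ _), card_powersetCard, card_univ, ZMod.card]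
  rw [← hcard]
  refine Finset.card_le_card_of_injOn g ?_ ?_
  · rintro ⟨c, S⟩ hu
    rw [Finset.mem_coe, mem_product, mem_erase, mem_powersetCard] at hu
    obtain ⟨⟨hc, -⟩, -, hS⟩ := hu
    have hd : (f (c, S)).natDegree ≤ κ := by rw [hfdeg c S hc, hS]
    rw [Finset.mem_coe, wset, Finset.mem_filter]
    refine ⟨mem_univ _, ?_, ?_⟩
    · intro h0
      have h1 := congrFun h0 ⟨κ, Nat.lt_succ_self κ⟩
      have h2 := hlead c S
      rw [hS] at h2
      exact hc (h2.symm.trans h1)
    · have h1 : ({y : ZMod p | ev (g (c, S)) y = 0} : Finset (ZMod p)) = S := by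
        ext y
        rw [Finset.mem_filter, ev_coeff (f (c, S)) hd y, heval c S y hc]
        exact ⟨fun h => h.2, fun h => ⟨mem_univ _, h⟩⟩
      rw [nz, h1, hS]
  · rintro ⟨c, S⟩ hu ⟨c', S'⟩ hu' h
    rw [Finset.mem_coe, mem_product, mem_erase, mem_powersetCard] at hu hu'
    obtain ⟨⟨hc, -⟩, -, hS⟩ := hu
    obtain ⟨⟨hc', -⟩, -, hS'⟩ := hu'
    have hd : (f (c, S)).natDegree ≤ κ := by rw [hfdeg c S hc, hS]
    have hd' : (f (c', S')).natDegree ≤ κ := by rw [hfdeg c' S' hc', hS']
    have hSS : S = S' := by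
      ext y
      rw [← heval c S y hc, ← heval c' S' y hc', ← ev_coeff (f (c, S)) hd y,
        ← ev_coeff (f (c', S')) hd' y]
      show ev (g (c, S)) y = 0 ↔ ev (g (c', S')) y = 0
      rw [h]
    have hcc : c = c' := by
      have h1 := congrFun h ⟨κ, Nat.lt_succ_self κ⟩
      have h2 := hlead c S
      have h3 := hlead c' S'
      rw [hS] at h2
      rw [hS'] at h3
      exact h2.symm.trans (h1.trans h3)
    rw [hSS, hcc]

end Pool.Agent.Lib.MP_c5838f_co.SP.H51
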